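import Pool.Agent.Helper95.LN.Stmts

/-!
# Row ORB of the sheet LN (MP_56acfd_mp)
-/

set_option autoImplicit false

namespace Pool.Agent.Helper38.LN

open MeasureTheory Filter Topology Pool.Agent.Helper95.PW Pool.Agent.Helper95.LN

theorem nr_cont : Continuous nr := by
  unfold nr
  fun_prop

theorem nr_nonneg (y : R3) : 0 ≤ nr y := Real.sqrt_nonneg _

theorem nr_smul (a : ℝ) (ha : 0 < a) (y : R3) : nr (a • y) = a * nr y := by
  unfold nr
  have h : (a • y) 0 ^ 2 + (a • y) 1 ^ 2 + (a • y) 2 ^ 2 =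
      a ^ 2 * (y 0 ^ 2 + y 1 ^ 2 + y 2 ^ 2) := by
    simp only [Pi.smul_apply, smul_eq_mul]
    ring
  rw [h, Real.sqrt_mul (by positivity), Real.sqrt_sq ha.le]

theorem abs_le_nr (y : R3) (i : Fin 3) : |y i| ≤ nr y := by
  unfold nr
  rw [← Real.sqrt_sq_eq_abs]
  apply Real.sqrt_le_sqrt
  fin_cases i <;> simp <;> nlinarith [sq_nonneg (y 0), sq_nonneg (y 1), sq_nonneg (y 2)]

theorem norm_le_nr (y : R3) : ‖y‖ ≤ nr y := by
  rw [pi_norm_le_iff_of_nonneg (nr_nonneg y)]
  intro i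
  rw [Real.norm_eq_abs]
  exact abs_le_nr y i

theorem bt_zero_left (t : ℝ) (ht : t ≤ 1) : bt t = 0 := by
  unfold bt
  rw [Real.smoothTransition.zero_of_nonpos (by linarith), zero_mul]

theorem bt_zero_right (t : ℝ) (ht : 2 ≤ t) : bt t = 0 := by
  unfold bt
  rw [Real.smoothTransition.zero_of_nonpos (x := 4 * (2 - t)) (by linarith), mul_zero]

theorem bt_smooth : ContDiff ℝ (⊤ : ℕ∞) bt := by
  unfold bt
  have h := Real.smoothTransition.contDiff (n := (⊤ : ℕ∞))
  exact (h.comp (by fun_prop)).mul (h.comp (by fun_prop))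

theorem nr_smooth (y : R3) (hy : nr y ≠ 0) : ContDiffAt ℝ (⊤ : ℕ∞) nr y := by
  unfold nr
  refine ContDiffAt.sqrt (by fun_prop) ?_
  intro h
  apply hy
  unfold nr
  rw [h, Real.sqrt_zero]

theorem orb_small (a : ℝ) (ha : 0 < a) (y : R3) (hy : nr y < a / 2) : orb a y = 0 := by
  unfold orb
  rcases (nr_nonneg y).eq_or_lt with h | h
  · rw [← h, div_zero, bt_zero_left 0 (by norm_num)]
    simp
  · rw [bt_zero_right]
    · simp
    · rw [le_div_iff₀ h]
      linarith

theorem orb_large (a : ℝ) (ha : 0 < a) (y : R3) (hy : a < nr y) : orb a y = 0 := by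
  unfold orb
  rw [bt_zero_left]
  · simp
  · rw [div_le_one (ha.trans hy)]
    exact hy.le

theorem orb_smooth (a : ℝ) (ha : 0 < a) : ContDiff ℝ (⊤ : ℕ∞) (orb a) := by
  rw [contDiff_iff_contDiffAt]
  intro y
  by_cases hy : nr y = 0
  · have h : orb a =ᶠ[𝓝 y] fun _ => 0 := by
      have h1 : ∀ᶠ z in 𝓝 y, nr z < a / 2 :=
        nr_cont.continuousAt.eventually_lt continuousAt_const (by rw [hy]; linarith)
      filter_upwards [h1] with z hz
      exact orb_small a ha z hz
    exact contDiffAt_const.congr_of_eventuallyEq h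
  · have h1 := nr_smooth y hy
    have h2 : ContDiffAt ℝ (⊤ : ℕ∞) (fun z => bt (a / nr z)) y :=
      bt_smooth.contDiffAt.comp y (contDiffAt_const.div h1 hy)
    have h3 : ContDiffAt ℝ (⊤ : ℕ∞) (fun z => bt (a / nr z) / nr z ^ 2) y :=
      h2.div (h1.pow 2) (pow_ne_zero 2 hy)
    exact contDiffAt_const.mul h3

theorem orb_tsupp (a : ℝ) (ha : 0 < a) (y : R3) (hy : y ∈ tsupport (orb a)) :
    a / 2 ≤ nr y ∧ nr y ≤ a := by
  have hcl : IsClosed {z : R3 | a / 2 ≤ nr z ∧ nr z ≤ a} :=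
    (isClosed_le continuous_const nr_cont).inter (isClosed_le nr_cont continuous_const)
  have hsub : Function.support (orb a) ⊆ {z : R3 | a / 2 ≤ nr z ∧ nr z ≤ a} := by
    intro z hz
    rw [Function.mem_support] at hz
    refine ⟨?_, ?_⟩
    · by_contra hc
      exact hz (orb_small a ha z (not_le.1 hc))
    · by_contra hc
      exact hz (orb_large a ha z (not_le.1 hc))
  exact closure_minimal hsub hcl hy

theorem orb_compact (a : ℝ) (ha : 0 < a) : HasCompactSupport (orb a) := by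
  refine HasCompactSupport.intro (isCompact_closedBall (0 : R3) a) fun y hy => ?_
  rw [Metric.mem_closedBall, dist_zero_right, not_le] at hy
  exact orb_large a ha y (hy.trans_le (norm_le_nr y))

theorem orb_scale (a : ℝ) (ha : 0 < a) (hcb : 0 < cb) (hk : 0 < kap) :
    orb a = fun y => (Real.sqrt a / a ^ 2) * orb 1 (a⁻¹ • y) := by
  funext y
  unfold orb
  have h1 : Real.sqrt (a / (cb * kap)) = Real.sqrt a * Real.sqrt (1 / (cb * kap)) := by
    rw [← Real.sqrt_mul ha.le]
    congr 1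
    ring
  rw [h1, nr_smul a⁻¹ (inv_pos.2 ha)]
  have h2 : (1 : ℝ) / (a⁻¹ * nr y) = a / nr y := by
    rw [one_div, mul_inv, inv_inv, div_eq_mul_inv]
  rw [h2]
  have ha0 := ha.ne'
  by_cases hy : nr y = 0
  · rw [hy]
    simp
  · field_simp

theorem pd_scale (g : R3 → ℝ) (hg : Differentiable ℝ g) (k b : ℝ) (i : Fin 3) (y : R3) :
    pd i (fun z => k * g (b • z)) y = k * (b * pd i g (b • y)) := by
  unfold pd
  have h1 : HasFDerivAt (fun z : R3 => b • z) (b • ContinuousLinearMap.id ℝ R3) y :=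
    (hasFDerivAt_id y).const_smul b
  have h2 : HasFDerivAt (fun z => g (b • z))
      ((fderiv ℝ g (b • y)).comp (b • ContinuousLinearMap.id ℝ R3)) y :=
    (hg (b • y)).hasFDerivAt.comp y h1
  have h3 := (h2.const_mul k).fderiv
  rw [h3]
  simp

theorem ORB (h1 : ST_PHC) : ST_ORB := by
  obtain ⟨hcb, hk, _, hPHC⟩ := h1
  refine ⟨(∑ i, ∫ y, pd i (orb 1) y ^ 2) + 1, ?_, fun a ha => ⟨orb_smooth a ha, orb_compact a ha,
    orb_tsupp a ha, ?_, ?_, ?_⟩⟩
  · have : 0 ≤ ∑ i, ∫ y, pd i (orb 1) y ^ 2 :=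
      Finset.sum_nonneg fun i _ => integral_nonneg fun y => sq_nonneg _
    linarith
  · intro y
    unfold orb et
    rw [mul_pow, Real.sq_sqrt (by positivity)]
    field_simp
  · have h2 : ∀ y, orb a y ^ 2 = et a y / kap := by
      intro y
      unfold orb et
      rw [mul_pow, Real.sq_sqrt (by positivity)]
      field_simp
    simp_rw [h2]
    rw [integral_div, (hPHC a ha).2.2.2.2.2, div_self hk.ne']
  · have hsm : Differentiable ℝ (orb 1) := (orb_smooth 1 one_pos).differentiable (by simp)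
    have h3 : ∀ i, ∫ y, pd i (orb a) y ^ 2 = (∫ y, pd i (orb 1) y ^ 2) / a ^ 2 := by
      intro i
      have h4 : ∀ y, pd i (orb a) y ^ 2 = (Real.sqrt a / a ^ 2 * a⁻¹) ^ 2 *
          (fun z => pd i (orb 1) z ^ 2) (a⁻¹ • y) := by
        intro y
        rw [orb_scale a ha hcb hk, pd_scale _ hsm]
        ring
      simp_rw [h4]
      have h7 := Measure.integral_comp_inv_smul (volume : Measure R3)
        (fun z => pd i (orb 1) z ^ 2) a
      have h5 : Module.finrank ℝ R3 = 3 := by simp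
      rw [h5, abs_of_pos (by positivity), smul_eq_mul] at h7
      rw [integral_const_mul, h7]
      have h6 : (Real.sqrt a / a ^ 2 * a⁻¹) ^ 2 = a / a ^ 6 := by
        rw [mul_pow, div_pow, Real.sq_sqrt ha.le]
        field_simp
      rw [h6]
      field_simp
    rw [Finset.sum_congr rfl fun i _ => h3 i, ← Finset.sum_div]
    gcongr
    linarith

end Pool.Agent.Helper38.LN
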